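import Mathlib

namespace Pool.Agent.Results.MP_f4e9fb_co.TwoFullStars

open Finset

/-- `E` contains the expansion `H_{l+1}^r` of the clique `K_{l+1}`. -/
def HasExpClique {n : ℕ} (r l : ℕ) (E : Finset (Finset (Fin n))) : Prop :=
  ∃ (c : Fin (l + 1) → Fin n) (X : Fin (l + 1) → Fin (l + 1) → Finset (Fin n)),
    Function.Injective c ∧
    (∀ i j, i < j → (X i j).card = r - 2 ∧ (∀ a, c a ∉ X i j) ∧ {c i, c j} ∪ X i j ∈ E) ∧
    ∀ i j i' j', i < j → i' < j' → (i, j) ≠ (i', j') → Disjoint (X i j) (X i' j')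

/-- `E` contains `s + 1` pairwise disjoint edges. -/
def HasMatching {n : ℕ} (s : ℕ) (E : Finset (Finset (Fin n))) : Prop :=
  ∃ f : Fin (s + 1) → Finset (Fin n), (∀ i, f i ∈ E) ∧ ∀ i j, i ≠ j → Disjoint (f i) (f j)

/-- `t_k(m, q)`: `k`-subsets of an `m`-set meeting each residue class mod `q` at most once. -/
def t (k m q : ℕ) : ℕ :=
  ((powersetCard k (range m)).filter fun S => ∀ a ∈ S, ∀ b ∈ S, a % q = b % q → a = b).card

lemma t_le (m : ℕ) : 4 * t 2 m 2 ≤ m ^ 2 := by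
  let A := (range m).filter fun a => a % 2 = 0
  let B := (range m).filter fun a => ¬ a % 2 = 0
  have hAB : A.card + B.card = m := by
    rw [card_filter_add_card_filter_not, card_range]
  have : t 2 m 2 ≤ A.card * B.card := by
    rw [← card_product]
    refine le_trans (card_le_card ?_) (card_image_le (f := fun p : ℕ × ℕ => ({p.1, p.2} : Finset ℕ)))
    intro S hS
    obtain ⟨h1, h2⟩ := mem_filter.1 hS
    obtain ⟨h1, h3⟩ := mem_powersetCard.1 h1
    obtain ⟨a, b, hab, rfl⟩ := card_eq_two.1 h3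
    have ha := h1 (mem_insert_self a {b})
    have hb : b ∈ range m := h1 (by simp)
    have hne : a % 2 ≠ b % 2 := fun h => hab (h2 a (by simp) b (by simp) h)
    by_cases h : a % 2 = 0
    · exact mem_image.2 ⟨(a, b), mem_product.2 ⟨mem_filter.2 ⟨ha, h⟩, mem_filter.2 ⟨hb, by omega⟩⟩,
        rfl⟩
    · exact mem_image.2 ⟨(b, a), mem_product.2 ⟨mem_filter.2 ⟨hb, by omega⟩, mem_filter.2 ⟨ha, h⟩⟩,
        pair_comm _ _⟩
  have h4 : 4 * (A.card * B.card) ≤ (A.card + B.card) ^ 2 := by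
    nlinarith [sq_nonneg ((A.card : ℤ) - B.card)]
  rw [hAB] at h4
  omega

def E (m : ℕ) : Finset (Finset (Fin (m + 2))) :=
  powersetCard 3 univ \ powersetCard 3 (univ \ {0, 1})

lemma mem_E {m : ℕ} {S : Finset (Fin (m + 2))} (h : S ∈ E m) :
    S.card = 3 ∧ (0 ∈ S ∨ 1 ∈ S) := by
  obtain ⟨h1, h2⟩ := mem_sdiff.1 h
  have h3 := (mem_powersetCard.1 h1).2
  refine ⟨h3, ?_⟩
  by_contra hc
  push Not at hc
  refine h2 (mem_powersetCard.2 ⟨fun x hx => ?_, h3⟩)
  simp only [mem_sdiff, mem_univ, mem_insert, mem_singleton, true_and, not_or]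
  exact ⟨fun e => hc.1 (e ▸ hx), fun e => hc.2 (e ▸ hx)⟩

lemma card_E (m : ℕ) : (E m).card = m ^ 2 := by
  have h : (univ \ {0, 1} : Finset (Fin (m + 2))).card = m := by
    rw [card_sdiff_of_subset (subset_univ _), card_pair (by simp)]; simp
  rw [E, card_sdiff_of_subset (powersetCard_mono (subset_univ _)), card_powersetCard,
    card_powersetCard, h, card_univ, Fintype.card_fin]
  have h1 : (m + 2).choose 3 = (m + 1).choose 2 + (m.choose 2 + m.choose 3) := by
    rw [Nat.choose_succ_succ' (m + 1) 2, Nat.choose_succ_succ' m 2]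
  have h2 : ∀ k : ℕ, (k + 1).choose 2 + k.choose 2 = k ^ 2 := by
    intro k
    induction k with
    | zero => rfl
    | succ k ih =>
      rw [Nat.choose_succ_succ' (k + 1) 1, Nat.choose_one_right]
      have := Nat.choose_succ_succ' k 1
      rw [Nat.choose_one_right] at this
      simp only [Nat.reduceAdd] at this ⊢
      nlinarith
  have := h2 m
  omega

lemma no_clique (m : ℕ) : ¬ HasExpClique 3 3 (E m) := by
  rintro ⟨c, X, hc, h1, h2⟩
  have key : ∀ v, ∃ a, ∀ i j, i < j → v ∈ {c i, c j} ∪ X i j → i = a ∨ j = a := by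
    intro v
    by_cases h : ∃ a b, a < b ∧ v ∈ X a b
    · obtain ⟨a, b, hab, hv⟩ := h
      refine ⟨a, fun i j hij hm => ?_⟩
      simp only [mem_union, mem_insert, mem_singleton] at hm
      rcases hm with (rfl | rfl) | hm
      · exact absurd hv ((h1 a b hab).2.1 _)
      · exact absurd hv ((h1 a b hab).2.1 _)
      · by_contra hne
        exact disjoint_left.1 (h2 i j a b hij hab (fun e => hne (Or.inl (congrArg Prod.fst e))))
          hm hv
    · by_cases h' : ∃ a, v = c a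
      · obtain ⟨a, rfl⟩ := h'
        refine ⟨a, fun i j hij hm => ?_⟩
        simp only [mem_union, mem_insert, mem_singleton] at hm
        rcases hm with (e | e) | hm
        · exact Or.inl (hc e).symm
        · exact Or.inr (hc e).symm
        · exact absurd ⟨i, j, hij, hm⟩ h
      · refine ⟨0, fun i j hij hm => ?_⟩
        simp only [mem_union, mem_insert, mem_singleton] at hm
        rcases hm with (e | e) | hm
        · exact absurd ⟨i, e⟩ h'
        · exact absurd ⟨j, e⟩ h'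
        · exact absurd ⟨i, j, hij, hm⟩ h
  obtain ⟨a, ha⟩ := key 0
  obtain ⟨b, hb⟩ := key 1
  have : ∀ a b : Fin (3 + 1), ∃ i j, i < j ∧ ¬ (i = a ∨ j = a) ∧ ¬ (i = b ∨ j = b) := by decide
  obtain ⟨i, j, hij, h3, h4⟩ := this a b
  rcases (mem_E (h1 i j hij).2.2).2 with h | h
  · exact h3 (ha i j hij h)
  · exact h4 (hb i j hij h)

lemma no_matching (m s : ℕ) (hs : 2 ≤ s) : ¬ HasMatching s (E m) := by
  rintro ⟨f, h1, h2⟩
  have d01 := disjoint_left.1 (h2 ⟨0, by omega⟩ ⟨1, by omega⟩ (by simp))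
  have d02 := disjoint_left.1 (h2 ⟨0, by omega⟩ ⟨2, by omega⟩ (by simp))
  have d12 := disjoint_left.1 (h2 ⟨1, by omega⟩ ⟨2, by omega⟩ (by simp))
  rcases (mem_E (h1 ⟨0, by omega⟩)).2 with a | a <;>
  rcases (mem_E (h1 ⟨1, by omega⟩)).2 with b | b <;>
  rcases (mem_E (h1 ⟨2, by omega⟩)).2 with c | c <;>
  first | exact d01 a b | exact d02 a c | exact d12 b c

theorem result : ∃ l r : ℕ, 3 ≤ r ∧ r ≤ l ∧ ∀ s ∈ ({3, 4} : Finset ℕ), l.choose 2 ≤ s ∧
    ∀ n, 3 ≤ n → ∃ E : Finset (Finset (Fin n)), (∀ e ∈ E, e.card = r) ∧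
      ¬ HasExpClique r l E ∧ ¬ HasMatching s E ∧ s * t (r - 1) (n - s) (l - 1) < E.card := by
  refine ⟨3, 3, le_rfl, le_rfl, fun s hs => ?_⟩
  have hs' : 3 ≤ s ∧ s ≤ 4 := by
    simp only [mem_insert, mem_singleton] at hs
    omega
  refine ⟨hs'.1, fun n hn => ?_⟩
  obtain ⟨m, rfl⟩ : ∃ m, n = m + 2 := ⟨n - 2, by omega⟩
  refine ⟨E m, fun e he => (mem_E he).1, no_clique m, no_matching m s (by omega), ?_⟩
  have h1 := t_le (m + 2 - s)
  have h2 : (m + 2 - s) ^ 2 < m ^ 2 := Nat.pow_lt_pow_left (by omega) (by norm_num)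
  have h3 := Nat.mul_le_mul_right (t 2 (m + 2 - s) 2) hs'.2
  rw [card_E]
  exact lt_of_le_of_lt (h3.trans h1) h2

end Pool.Agent.Results.MP_f4e9fb_co.TwoFullStars
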